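import Pool.Agent.Q289.BG.Stm

/-!
# Project BG (helper289), job HAL: a lower bound for the second moments of the coordinates

The mean of `∑ y_i (1 - y_i)` over `Up G` is `n / 6`, and `y (1 - y) ≤ 1 / 12 + 3 y²`.
-/

set_option autoImplicit false

namespace Pool.Agent.Q238.BG

open MeasureTheory Set Q289.BG
open Pool.Agent.W695.KH (Eu EV VV)

theorem hal (h1 : S_TRN) (h2 : S_SIX) (h3 : S_SOL) : S_HAL := by
  intro ι _ _ G hG s hs
  obtain ⟨P, c, hT⟩ := h1 ι G hG
  obtain ⟨hc, hpos, -, -⟩ := h3 ι G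
  have hfin : volume (Up G) < ⊤ := hc.measure_lt_top
  have hV : 0 < (volume (Up G)).toReal := ENNReal.toReal_pos hpos.ne' hfin.ne
  have e1 : EV (Up G) (fun y => ∑ i, y i * (1 - y i)) = Fintype.card ι / 6 := by
    rw [hT, ← @h2 ι _ P]
    congr 1
    funext x
    refine Finset.sum_congr rfl fun i _ => ?_
    simp only [fl]
    split_ifs <;> ring
  have hci : ∀ i : ι, Continuous fun y : Eu ι => y i := fun i => by fun_prop
  have hI : ∀ g : Eu ι → ℝ, Continuous g → IntegrableOn g (Up G) := fun g hg =>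
    hg.continuousOn.integrableOn_compact hc
  have hle : ∫ y in Up G, ∑ i, y i * (1 - y i) ≤ ∫ y in Up G, ∑ i, (1 / 12 + 3 * y i ^ 2) := by
    refine integral_mono (hI _ ?_) (hI _ ?_) fun y => ?_
    · exact continuous_finsetSum _ fun i _ => (hci i).mul (continuous_const.sub (hci i))
    · exact continuous_finsetSum _ fun i _ => continuous_const.add (((hci i).pow 2).const_mul 3)
    · refine Finset.sum_le_sum fun i _ => ?_
      nlinarith [sq_nonneg (y i - 1 / 6), sq_nonneg (y i)]
  have e2 : ∫ y in Up G, ∑ i, (1 / 12 + 3 * y i ^ 2) =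
      ∑ i : ι, (1 / 12 * (volume (Up G)).toReal + 3 * ∫ y in Up G, y i ^ 2) := by
    have ha : ∀ i : ι, IntegrableOn (fun y : Eu ι => (1 / 12 + 3 * y i ^ 2 : ℝ)) (Up G) := fun i =>
      hI _ (continuous_const.add (((hci i).pow 2).const_mul 3))
    have hb : ∀ i : ι, IntegrableOn (fun y : Eu ι => (3 * y i ^ 2 : ℝ)) (Up G) := fun i =>
      hI _ (((hci i).pow 2).const_mul 3)
    have hd : IntegrableOn (fun _ : Eu ι => (1 / 12 : ℝ)) (Up G) := hI _ continuous_const
    rw [integral_finsetSum _ fun i _ => ha i]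
    refine Finset.sum_congr rfl fun i _ => ?_
    rw [integral_add hd (hb i), integral_const_mul, setIntegral_const]
    simp only [Measure.real, smul_eq_mul]
    ring
  have h4 : ∀ i, ∫ y in Up G, y i ^ 2 ≤ s * (volume (Up G)).toReal := fun i => by
    have := hs i
    simp only [EV] at this
    rwa [div_le_iff₀ hV] at this
  have h5 : ∫ y in Up G, ∑ i, y i * (1 - y i) = Fintype.card ι / 6 * (volume (Up G)).toReal := by
    simp only [EV] at e1
    rwa [div_eq_iff hV.ne'] at e1
  have h6 : (Fintype.card ι : ℝ) / 6 * (volume (Up G)).toReal ≤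
      ∑ _i : ι, (1 / 12 * (volume (Up G)).toReal + 3 * (s * (volume (Up G)).toReal)) := by
    rw [← h5]
    refine hle.trans (e2.le.trans (Finset.sum_le_sum fun i _ => ?_))
    linarith [h4 i]
  rw [Finset.sum_const, nsmul_eq_mul, Finset.card_univ] at h6
  have hn : (0 : ℝ) < Fintype.card ι := by exact_mod_cast Fintype.card_pos
  have h7 : (Fintype.card ι * (volume (Up G)).toReal : ℝ) * (1 / 6) ≤
      (Fintype.card ι * (volume (Up G)).toReal) * (1 / 12 + 3 * s) := by linarith
  have h8 := le_of_mul_le_mul_left h7 (mul_pos hn hV)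
  linarith

end Pool.Agent.Q238.BG
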